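import Pool.Agent.Helper66.TU.Defs

/-!
# Module CYCU: the group of points modulo the points near zero is finite, with small torsion
-/

namespace GWA

open Polynomial

section CYCU

variable {K : Type} [NormedField K] [Algebra GaussianInt K] {π : GaussianInt}
  {k : Type} [Field k] [Algebra GaussianInt k] {r : K → k}

theorem LHU.norm_aeval_leU (h : LHU K π) (V : GaussianInt[X]) {x : K} (hx : ‖x‖ ≤ 1) :
    ‖aeval x V‖ ≤ 1 := by
  induction V using Polynomial.induction_on' with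
  | add p q hp hq =>
    rw [map_add]
    exact (h.ultra _ _).trans (max_le hp hq)
  | monomial n a =>
    rw [aeval_monomial, norm_mul, norm_pow]
    have h1 := h.norm_O_le a
    have h2 := pow_le_one₀ (n := n) (norm_nonneg x) hx
    nlinarith [norm_nonneg (algebraMap GaussianInt K a), pow_nonneg (norm_nonneg x) n]

theorem RMap.pow (hr : RMap K k r) {x : K} (hx : ‖x‖ ≤ 1) (n : ℕ) : r (x ^ n) = r x ^ n := by
  induction n with
  | zero =>
    rw [pow_zero, pow_zero]
    have h1 := hr.coe 1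
    rwa [map_one, map_one] at h1
  | succ n ih =>
    rw [pow_succ, pow_succ, hr.mul _ _ _ hx, ih]
    rw [norm_pow]
    exact pow_le_one₀ (norm_nonneg _) hx

theorem RMap.lt_of_eq (h : LHU K π) (hr : RMap K k r) {x y : K} (hx : ‖x‖ ≤ 1) (hy : ‖y‖ ≤ 1)
    (hxy : r x = r y) : ‖x - y‖ < 1 := by
  have h1 : ‖x - y‖ ≤ 1 := (h.norm_sub_le _ _).trans (max_le hx hy)
  have h2 := hr.add (x - y) y h1 hy
  rw [sub_add_cancel, hxy] at h2
  exact (hr.eq_zero _ h1).1 (by simpa using h2)

theorem RMap.aeval_eq (h : LHU K π) (hr : RMap K k r) (V : GaussianInt[X]) {x : K}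
    (hx : ‖x‖ ≤ 1) : r (aeval x V) = (V.map (algebraMap GaussianInt k)).eval (r x) := by
  induction V using Polynomial.induction_on' with
  | add p q hp hq =>
    rw [map_add, hr.add _ _ (h.norm_aeval_leU p hx) (h.norm_aeval_leU q hx), hp, hq,
      Polynomial.map_add, eval_add]
  | monomial n a =>
    rw [aeval_monomial, hr.mul _ _ (h.norm_O_le a), hr.coe, hr.pow hx, map_monomial,
      eval_monomial]
    rw [norm_pow]
    exact pow_le_one₀ (norm_nonneg _) hx

variable [NeZero (2 : K)] [DecidableEq K]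

theorem LHU.norm_V_ltU (h : LHU K π) (d : Kˣ) {α : GaussianInt} {n : ℕ} {U V : GaussianInt[X]}
    (hM : MulPol α n U V) {P : E (d : K)} (hP : P ≠ 0) (hx : ‖nx P‖ ≤ 1)
    (hα : α • P ∈ nb π (d : K) 0) : ‖aeval (nx P) V‖ < 1 := by
  rw [h.mem_nb_zero_iff d.ne_zero] at hα
  rcases hM.rep K d P hP with ⟨-, h1, -⟩ | ⟨h1, h3, h4⟩
  · rw [h1, norm_zero]; exact one_pos
  · have h5 := hα.resolve_left h1
    have h6 := h.norm_aeval_leU U hx
    rw [← h4, norm_mul] at h6
    have h7 : 0 < ‖aeval (nx P) V‖ := norm_pos_iff.2 h3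
    by_contra hc
    push Not at hc
    nlinarith

theorem LHU.out_specU (h : LHU K π) (d : Kˣ) (m : h.QM d) (hm : m ≠ 0) :
    (Quotient.out m : E (d : K)) ≠ 0 ∧ ‖nx (Quotient.out m : E (d : K))‖ ≤ 1 := by
  rw [← h.not_mem_nb_iff d.ne_zero]
  intro hmem
  apply hm
  have h1 : (Submodule.Quotient.mk (Quotient.out m) : h.QM d) = m := Quotient.out_eq m
  rw [← h1, Submodule.Quotient.mk_eq_zero]
  exact hmem

theorem LHU.res_twoU (h : LHU K π) (hr : RMap K k r) (d : Kˣ) (m m' : h.QM d) (hm : m ≠ 0)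
    (hm' : m' ≠ 0) (hmm : r (nx (Quotient.out m : E (d : K))) =
      r (nx (Quotient.out m' : E (d : K)))) : m = m' ∨ m = -m' := by
  have h1 : (Submodule.Quotient.mk (Quotient.out m) : h.QM d) = m := Quotient.out_eq m
  have h1' : (Submodule.Quotient.mk (Quotient.out m') : h.QM d) = m' := Quotient.out_eq m'
  obtain ⟨hP, hx⟩ := h.out_specU d m hm
  obtain ⟨hP', hx'⟩ := h.out_specU d m' hm'
  rcases h.res_diff h.odd d.ne_zero hP hP' hx hx' (hr.lt_of_eq h hx hx' hmm) with h3 | h3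
  · left
    rw [← h1, ← h1', Submodule.Quotient.eq]
    exact h3
  · right
    rw [← h1, ← h1', ← Submodule.Quotient.mk_neg, Submodule.Quotient.eq, sub_neg_eq_add]
    exact h3

theorem LHU.card_QMU (h : LHU K π) (hr : RMap K k r) [Finite k] (d : Kˣ) :
    Finite (h.QM d) ∧ Nat.card (h.QM d) ≤ 2 * Nat.card k + 1 := by
  obtain ⟨h3, h4⟩ := card_le_of_two (A := {m : h.QM d // m ≠ 0})
    (fun m => ⟨-m.1, neg_ne_zero.2 m.2⟩)
    (fun m => r (nx (Quotient.out m.1 : E (d : K)))) (by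
      intro m m' hmm
      rcases h.res_twoU hr d m.1 m'.1 m.2 m'.2 hmm with h5 | h5
      · left; exact Subtype.ext h5
      · right; exact Subtype.ext h5)
  obtain ⟨h5, h6⟩ := card_eq_succ (M := h.QM d)
  refine ⟨h5, ?_⟩
  rw [h6]
  omega

theorem LHU.card_torsU (h : LHU K π) (hr : RMap K k r) [Finite k] (d : Kˣ) {l : GaussianInt}
    (hl : Prime l) (hπ : ¬ π ∣ l) :
    Nat.card {m : h.QM d // l • m = 0} < l.norm.natAbs ^ 2 := by
  classical
  obtain ⟨hfin, hcard⟩ := h.card_QMU hr d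
  obtain ⟨U, V, hM⟩ := exists_mulPol' l hl.ne_zero
  set W := V.map (algebraMap GaussianInt k) with hW
  have hW0 : W ≠ 0 := by
    intro h0
    have h3 := congrArg (fun p => Polynomial.coeff p (l.norm.natAbs - 1)) h0
    simp only [hW, coeff_map, coeff_zero, hM.topV] at h3
    rw [← hr.coe, hr.eq_zero _ (h.norm_O_le _), h.norm_lt_one_iff] at h3
    exact hπ (h.prime.dvd_of_dvd_pow h3)
  have hWd : W.roots.toFinset.card ≤ l.norm.natAbs - 1 := by
    refine (Multiset.toFinset_card_le _).trans ?_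
    refine (Polynomial.card_roots' W).trans ?_
    exact (natDegree_map_le).trans hM.degV
  let Z : Zero {m : h.QM d // l • m = 0} := ⟨⟨0, smul_zero _⟩⟩
  have hval0 : ((0 : {m : h.QM d // l • m = 0}) : h.QM d) = 0 := rfl
  have hne : ∀ m : {m' : {m : h.QM d // l • m = 0} // m' ≠ 0}, m.1.1 ≠ 0 := by
    intro m hm
    exact m.2 (Subtype.ext hm)
  have hroot : ∀ m : {m' : {m : h.QM d // l • m = 0} // m' ≠ 0},
      r (nx (Quotient.out m.1.1 : E (d : K))) ∈ W.roots.toFinset := by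
    intro m
    obtain ⟨hP, hx⟩ := h.out_specU d m.1.1 (hne m)
    rw [Multiset.mem_toFinset, mem_roots hW0, IsRoot.def, hW, ← hr.aeval_eq h V hx,
      hr.eq_zero _ (h.norm_aeval_leU V hx)]
    have h1 : (Submodule.Quotient.mk (Quotient.out m.1.1) : h.QM d) = m.1.1 :=
      Quotient.out_eq m.1.1
    have hl' : l • (Quotient.out m.1.1 : E (d : K)) ∈ nb π (d : K) 0 := by
      have h3 : l • m.1.1 = 0 := m.1.2
      rw [← h1, ← Submodule.Quotient.mk_smul, Submodule.Quotient.mk_eq_zero] at h3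
      exact h3
    exact h.norm_V_ltU d hM hP hx hl'
  obtain ⟨h3, h4⟩ := card_le_of_two (A := {m' : {m : h.QM d // l • m = 0} // m' ≠ 0})
    (B := W.roots.toFinset)
    (fun m => ⟨⟨-m.1.1, by rw [smul_neg, m.1.2, neg_zero]⟩, fun h0 => hne m (by
      have := congrArg Subtype.val h0
      exact neg_eq_zero.1 this)⟩)
    (fun m => ⟨_, hroot m⟩) (by
      intro m m' hmm
      have hmm' := congrArg Subtype.val hmm
      rcases h.res_twoU hr d m.1.1 m'.1.1 (hne m) (hne m') hmm' with h5 | h5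
      · left; exact Subtype.ext (Subtype.ext h5)
      · right; exact Subtype.ext (Subtype.ext h5))
  obtain ⟨h5, h6⟩ := card_eq_succ (M := {m : h.QM d // l • m = 0})
  rw [h6]
  have h7 : Nat.card W.roots.toFinset = W.roots.toFinset.card := by
    rw [Nat.card_eq_fintype_card, Fintype.card_coe]
  rw [h7] at h4
  have h8 : 1 ≤ l.norm.natAbs := by
    have h0 : 0 < l.norm := GaussianInt.norm_pos.2 hl.ne_zero
    omega
  obtain ⟨n, hn⟩ : ∃ n, l.norm.natAbs = n + 1 := ⟨l.norm.natAbs - 1, by omega⟩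
  rw [hn] at hWd ⊢
  have hn1 : n ≠ 0 := by
    intro h0
    rw [h0] at hn
    exact hl.not_isUnit (Zsqrtd.norm_eq_one_iff.1 hn)
  have : 0 < n ^ 2 := by positivity
  have h9 : (n + 1) ^ 2 = n ^ 2 + 2 * n + 1 := by ring
  omega

end CYCU

end GWA
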